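import Pool.Agent.X63.JoinCRVG3
import Pool.Agent.X63.RVGBound

/-!
A graph which is an open rectangle-of-influence graph and a corner rectangle visibility graph but
not a rectangle visibility graph.
-/

set_option autoImplicit false

namespace Pool.Agent.Results.MP_78e958_co.OpenRigCrvgNotRvg

open Pool.Agent.X63

/-- There is a finite graph that is an open RIG and a CRVG but is not an RVG. -/
theorem result : ∃ (V : Type) (_ : Fintype V) (G : SimpleGraph V),
    IsOpenRIG G ∧ IsCRVG G ∧ ¬ IsRVG G := by
  refine ⟨Bool × Fin 11, inferInstance, JC.J, JC.rig, JC.crvg, ?_⟩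
  intro h
  have h1 := RB.rvg_bound JC.J h
  have h2 := JC.J_card
  have h3 : Fintype.card (Bool × Fin 11) = 22 := by simp
  omega

end Pool.Agent.Results.MP_78e958_co.OpenRigCrvgNotRvg
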